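import Mathlib
import Pool.Agent.Helper74.UB.Goals3

/-!
# Adjacency in the map of a layout (packet UB-LAYAD)
-/

set_option autoImplicit false

namespace Pool.Agent.Helper69.UB

open Finset Equiv Helper28.VF Pool.Agent.Helper74.UB
open scoped Classical

theorem layad : StmtLayAd := by
  intro V D E F _ _ _ _ L M dE dW dU dN hA hM
  have tE : ∀ v, tg M (dE v) = L.e v := by
    intro v
    unfold tg
    rw [hM.aE, hM.vW]
  have tW : ∀ v, tg M (dW v) = v := by
    intro v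
    unfold tg
    rw [← hM.aE, M.α_inv, hM.vE]
  have tU : ∀ v k, L.up v k → tg M (dU v k) = k := by
    intro v k h
    unfold tg
    rw [hM.aU v k h, hM.vN v k h]
  have tN : ∀ v k, L.up v k → tg M (dN v k) = v := by
    intro v k h
    unfold tg
    rw [← hM.aU v k h, M.α_inv, hM.vU v k h]
  have vE := hM.vE
  have vW := hM.vW
  have vU := hM.vU
  have vN := hM.vN
  refine ⟨?_, ?_, ?_⟩
  · intro u v
    constructor
    · rintro ⟨d, rfl, rfl⟩
      rcases hM.cov d with ⟨w, rfl⟩ | ⟨w, rfl⟩ | ⟨w, k, h, rfl⟩ | ⟨w, k, h, rfl⟩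
      · rw [tE, vE]; exact Or.inl rfl
      · rw [tW, vW]; exact Or.inr (Or.inl rfl)
      · rw [tU _ _ h, vU _ _ h]; exact Or.inr (Or.inr (Or.inl h))
      · rw [tN _ _ h, vN _ _ h]; exact Or.inr (Or.inr (Or.inr h))
    · rintro (rfl | rfl | h | h)
      · exact ⟨dE u, vE u, tE u⟩
      · exact ⟨dW v, vW v, tW v⟩
      · exact ⟨dU u v, vU u v h, tU u v h⟩
      · exact ⟨dN v u, vN v u h, tN v u h⟩
  · intro d
    rcases hM.cov d with ⟨w, rfl⟩ | ⟨w, rfl⟩ | ⟨w, k, h, rfl⟩ | ⟨w, k, h, rfl⟩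
    · rw [tE, vE]; exact hA.e1 w
    · rw [tW, vW]; exact (hA.e1 w).symm
    · rw [tU _ _ h, vU _ _ h]
      intro hh
      have h3 := hA.up_row _ _ h
      rw [hh] at h3
      omega
    · rw [tN _ _ h, vN _ _ h]
      intro hh
      have h3 := hA.up_row _ _ h
      rw [hh] at h3
      omega
  · have key : ∀ v k, L.up v k → ∀ u, ¬ (L.row v = L.row u ∧ L.row k = L.row u) := by
      intro v k h u hh
      have := hA.up_row _ _ h
      omega
    intro d e h1 h2
    rcases hM.cov d with ⟨w, rfl⟩ | ⟨w, rfl⟩ | ⟨w, k, h, rfl⟩ | ⟨w, k, h, rfl⟩ <;>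
      rcases hM.cov e with ⟨w', rfl⟩ | ⟨w', rfl⟩ | ⟨w', k', h', rfl⟩ | ⟨w', k', h', rfl⟩
    · rw [vE, vE] at h1; rw [h1]
    · rw [vE, vW] at h1
      rw [tE, tW] at h2
      rw [h1] at h2
      exact absurd h2 (hA.e2 w')
    · rw [vE, vU _ _ h'] at h1
      rw [tE, tU _ _ h'] at h2
      exact absurd ⟨by rw [h1], by rw [← h2, hA.row_e]⟩ (key _ _ h' w)
    · rw [vE, vN _ _ h'] at h1
      rw [tE, tN _ _ h'] at h2
      exact absurd ⟨by rw [← h2, hA.row_e], by rw [h1]⟩ (key _ _ h' w)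
    · rw [vW, vE] at h1
      rw [tW, tE] at h2
      rw [h2] at h1
      exact absurd h1 (hA.e2 w')
    · rw [tW, tW] at h2; rw [h2]
    · rw [vW, vU _ _ h'] at h1
      rw [tW, tU _ _ h'] at h2
      exact absurd ⟨by rw [← h1, hA.row_e], by rw [← h2]⟩ (key _ _ h' w)
    · rw [vW, vN _ _ h'] at h1
      rw [tW, tN _ _ h'] at h2
      exact absurd ⟨by rw [← h2], by rw [← h1, hA.row_e]⟩ (key _ _ h' w)
    · rw [vU _ _ h, vE] at h1
      rw [tU _ _ h, tE] at h2
      exact absurd ⟨by rw [h1], by rw [h2, hA.row_e]⟩ (key _ _ h w')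
    · rw [vU _ _ h, vW] at h1
      rw [tU _ _ h, tW] at h2
      exact absurd ⟨by rw [h1, hA.row_e], by rw [h2]⟩ (key _ _ h w')
    · rw [vU _ _ h, vU _ _ h'] at h1
      rw [tU _ _ h, tU _ _ h'] at h2
      rw [h1, h2]
    · rw [vU _ _ h, vN _ _ h'] at h1
      rw [tU _ _ h, tN _ _ h'] at h2
      have h3 := hA.up_row _ _ h
      have h4 := hA.up_row _ _ h'
      rw [h1, h2] at h3
      omega
    · rw [vN _ _ h, vE] at h1
      rw [tN _ _ h, tE] at h2
      exact absurd ⟨by rw [h2, hA.row_e], by rw [h1]⟩ (key _ _ h w')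
    · rw [vN _ _ h, vW] at h1
      rw [tN _ _ h, tW] at h2
      exact absurd ⟨by rw [h2], by rw [h1, hA.row_e]⟩ (key _ _ h w')
    · rw [vN _ _ h, vU _ _ h'] at h1
      rw [tN _ _ h, tU _ _ h'] at h2
      have h3 := hA.up_row _ _ h
      have h4 := hA.up_row _ _ h'
      rw [h1, h2] at h3
      omega
    · rw [vN _ _ h, vN _ _ h'] at h1
      rw [tN _ _ h, tN _ _ h'] at h2
      rw [h1, h2]

end Pool.Agent.Helper69.UB
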